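import Mathlib
import Pool.Agent.R692.SZ.Defs
import Pool.Agent.R692.SZ.Main
import Pool.Agent.R692.SZ.Rep

set_option autoImplicit false

/-!
# Size functions of classes `EX(M_α) ∩ U(q)`: a counterexample with `q = 6`

Let `M0` be the direct sum of `U_{2,4}` and a coloop.  It has rank `3` and five elements, it is
representable over every field with at least three elements and it is not binary.  So for `q = 6`
and the single excluded minor `M0` the number `r̂` is `2` and the expected size function is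
`2^n - 1`.  But for every `n` the truncation of the binary projective geometry `PG(n,2)` to rank `n`
has no `U_{2,8}`-minor and no `M0`-minor, and for `n ≥ 2` it has `2^(n+1) - 1` points.
-/

namespace Pool.Agent.Results.MP_f02e69_co.Truncations

open Pool.Agent.R692.SZ
open scoped Matroid

/-- The statement of Q1: for all `q ≥ 2` and all collections `M k` of (finite) matroids in `U(q)`,
if `r` is the largest prime power `≤ q` such that no `M k` is `GF(r)`-representable, then the size
function of the class of the matroids in `U(q)` without `M k`-minors is `(r^n-1)/(r-1)` for all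
large `n`. -/
def Conjecture : Prop :=
  ∀ (q : ℕ), 2 ≤ q → ∀ (κ : Type) (α : κ → Type) (M : ∀ k, Matroid (α k)),
    (∀ k, (M k).E.Finite ∧ InU q (M k)) →
    ∀ r : ℕ, IsGreatest {r | IsPrimePow r ∧ r ≤ q ∧ ∀ k, ¬ Repr r (M k)} r →
      ∃ N : ℕ, ∀ n ≥ N,
        size (fun _ G => InU q G ∧ ∀ k, ¬ HasMinor G (M k)) n = (((r ^ n - 1) / (r - 1) : ℕ) : ℕ∞)

/-- For `q = 6` and the excluded minor `M0 = U_{2,4} ⊕ U_{1,1}` one has `r̂ = 2`, but the size
function is at least `2^(n+1) - 1` for all `n ≥ 2`; so the statement of Q1 is false. -/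
theorem result :
    (M0.E.Finite ∧ InU 6 M0 ∧ IsGreatest {r | IsPrimePow r ∧ r ≤ 6 ∧ ¬ Repr r M0} 2 ∧
      ∀ n : ℕ, 2 ≤ n →
        ((2 ^ (n + 1) - 1 : ℕ) : ℕ∞) ≤ size (fun _ G => InU 6 G ∧ ¬ HasMinor G M0) n) ∧
    ¬ Conjecture := by
  have hfin : M0.E.Finite := Set.toFinite _
  have hgr : IsGreatest {r | IsPrimePow r ∧ r ≤ 6 ∧ ¬ Repr r M0} 2 := by
    refine ⟨⟨Nat.prime_two.isPrimePow, by norm_num, M0_not_binary⟩, ?_⟩
    rintro r ⟨h1, h2, h3⟩
    by_contra h4
    have h5 : r = 3 ∨ r = 4 ∨ r = 5 ∨ r = 6 := by omega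
    rcases h5 with rfl | rfl | rfl | rfl
    · exact h3 M0_repr3
    · exact h3 M0_repr4
    · exact h3 M0_repr5
    · have h6 : ¬ IsPrimePow 6 := by
        rw [isPrimePow_nat_iff]
        rintro ⟨p, k, hp, hk, h⟩
        have h2 : 2 ∣ p ^ k := by rw [h]; norm_num
        have h3 : 3 ∣ p ^ k := by rw [h]; norm_num
        have e2 := (Nat.prime_dvd_prime_iff_eq Nat.prime_two hp).1
          (Nat.prime_two.dvd_of_dvd_pow h2)
        have e3 := (Nat.prime_dvd_prime_iff_eq Nat.prime_three hp).1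
          (Nat.prime_three.dvd_of_dvd_pow h3)
        omega
      exact h6 h1
  have hsize : ∀ n : ℕ, 2 ≤ n →
      ((2 ^ (n + 1) - 1 : ℕ) : ℕ∞) ≤ size (fun _ G => InU 6 G ∧ ¬ HasMinor G M0) n := by
    intro n hn
    refine (T_points n hn).trans ?_
    unfold size
    refine le_iSup_of_le (Io n) (le_iSup_of_le (T n) (le_iSup_of_le ?_ le_rfl))
    exact ⟨Set.toFinite _, ⟨T_inU n, T_noM0 n⟩, T_rank n⟩
  refine ⟨⟨hfin, M0_inU, hgr, hsize⟩, ?_⟩
  intro hC
  obtain ⟨N, hN⟩ := hC 6 (by norm_num) Unit (fun _ => Fin 5) (fun _ => M0)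
    (fun _ => ⟨hfin, M0_inU⟩) 2 (by simpa using hgr)
  have h1 := hN (max N 2) (le_max_left _ _)
  have h2 := hsize (max N 2) (le_max_right _ _)
  have h3 : size (fun _ G => InU 6 G ∧ ∀ _ : Unit, ¬ HasMinor G M0) (max N 2) =
      size (fun _ G => InU 6 G ∧ ¬ HasMinor G M0) (max N 2) := by
    congr 1
    funext β G
    simp
  rw [h3] at h1
  rw [h1] at h2
  have h4 : 2 ^ (max N 2 + 1) - 1 ≤ (2 ^ (max N 2) - 1) / (2 - 1) := by exact_mod_cast h2
  have h5 : 0 < 2 ^ (max N 2) := by positivity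
  rw [pow_succ] at h4
  simp at h4
  omega

end Pool.Agent.Results.MP_f02e69_co.Truncations
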